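import Pool.Agent.H28.LF.FD
import Pool.Agent.H48.MT2.SHF

/-!
Furstenberg systems of functions with values `-1, 0, 1`: invariance, finite words.
-/

set_option autoImplicit false

open MeasureTheory ProbabilityTheory Filter Topology Finset

namespace Pool.Agent.H83.W

open Pool.Agent.H89.MT (I1 X pt lavg QuasiGeneric z1)

/-- the shift -/
def S (x : X) : X := fun t => x (t + 1)

theorem S_cont : Continuous S := continuous_pi fun t => continuous_apply (t + 1)

/-- the shift, as a measurable equivalence -/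
noncomputable def Se : X ≃ᵐ X := (Pool.Agent.H28.LF.shS I1).toMeasurableEquiv

theorem Se_eq : (Se : X → X) = S := rfl

theorem pt_succ (u : ℕ → I1) (n : ℕ) : pt u (n + 1) = S (pt u n) := by
  funext m
  have e : (((n + 1 : ℕ) : ℤ) + m) = (n : ℤ) + (m + 1) := by push_cast; ring
  simp only [pt, S, e]

theorem lavg_shift (u : ℕ → I1) (F : C(X, ℝ)) (N : ℕ → ℕ) (hN : Tendsto N atTop atTop) :
    Tendsto (fun k => lavg (N k) (fun n => F (pt u (n + 1))) - lavg (N k) (fun n => F (pt u n)))
      atTop (𝓝 0) := by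
  set C : ℝ := ‖F‖ + 1 with hC
  have hC0 : 0 < C := by positivity
  have hb : ∀ x, |F x / C| ≤ 1 := by
    intro x
    rw [abs_div, abs_of_pos hC0, div_le_one hC0]
    have h1 := F.norm_coe_le_norm x
    rw [Real.norm_eq_abs] at h1
    linarith
  have hlog : Tendsto (fun k => Real.log (N k)) atTop atTop :=
    Real.tendsto_log_atTop.comp (tendsto_natCast_atTop_atTop.comp hN)
  have hlim : Tendsto (fun k => 3 * C / Real.log (N k)) atTop (𝓝 0) :=
    hlog.const_div_atTop _
  refine squeeze_zero_norm' ?_ hlim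
  filter_upwards [hlog.eventually_gt_atTop 0] with k hk
  have h1 := Pool.Agent.H48.MT2.shf_diff (fun n => F (pt u n) / C) (fun n => hb _) 1 (N k)
  unfold lavg
  rw [← sub_div, Real.norm_eq_abs, abs_div, abs_of_pos hk]
  apply div_le_div_of_nonneg_right _ hk.le
  have e1 : ∑ n ∈ Icc 1 (N k), F (pt u n) / C / n = (∑ n ∈ Icc 1 (N k), F (pt u n) / n) / C := by
    rw [Finset.sum_div]
    exact Finset.sum_congr rfl fun n _ => by ring
  have e2 : ∑ n ∈ Icc 1 (N k), F (pt u (n + 1)) / C / n =
      (∑ n ∈ Icc 1 (N k), F (pt u (n + 1)) / n) / C := by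
    rw [Finset.sum_div]
    exact Finset.sum_congr rfl fun n _ => by ring
  rw [e1, e2, ← sub_div, abs_div, abs_of_pos hC0, div_le_iff₀ hC0] at h1
  rw [abs_sub_comm]
  push_cast at h1
  linarith

/-- a quasi-generic measure is invariant -/
theorem qg_mp {u : ℕ → I1} {κ : Measure X} (h : QuasiGeneric u κ) :
    MeasurePreserving S κ κ := by
  haveI := h.1
  obtain ⟨N, hN, hF⟩ := h.2
  have hS : Measurable S := S_cont.measurable
  refine ⟨hS, ?_⟩
  haveI : IsProbabilityMeasure (κ.map S) := Measure.isProbabilityMeasure_map hS.aemeasurable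
  apply ext_of_forall_integral_eq_of_IsFiniteMeasure
  intro F
  rw [integral_map hS.aemeasurable F.continuous.aestronglyMeasurable]
  have h1 := hF ⟨fun x => F (S x), F.continuous.comp S_cont⟩
  have h2 := hF ⟨fun x => F x, F.continuous⟩
  have h3 := lavg_shift u ⟨fun x => F x, F.continuous⟩ N hN
  have h4 := h3.add h2
  simp only [ContinuousMap.coe_mk, sub_add_cancel, zero_add, pt_succ] at h4 h1
  exact tendsto_nhds_unique h1 h4

/-- hat function at `v` -/
noncomputable def bump (v : ℤ) (t : ℝ) : ℝ := max 0 (1 - |t - v|)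

theorem bump_val (v w : ℤ) (hv : v = -1 ∨ v = 0 ∨ v = 1) (hw : w = -1 ∨ w = 0 ∨ w = 1) :
    bump v w = if w = v then 1 else 0 := by
  unfold bump
  rcases hv with rfl | rfl | rfl <;> rcases hw with rfl | rfl | rfl <;> norm_num

open Classical in
/-- a continuous function which is the indicator of `E` on the words of `-1, 0, 1` -/
noncomputable def cyl (L : ℕ) (E : (Fin L → ℤ) → Prop) : C(X, ℝ) :=
  ⟨fun x => ∑ w ∈ (Fintype.piFinset fun _ : Fin L => ({-1, 0, 1} : Finset ℤ)).filter E,
    ∏ j : Fin L, bump (w j) (x ((j : ℤ) + 1)), by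
    unfold bump
    fun_prop⟩

open Classical in
theorem cyl_val (L : ℕ) (E : (Fin L → ℤ) → Prop) (x : X) (v : Fin L → ℤ)
    (hv : ∀ j, v j = -1 ∨ v j = 0 ∨ v j = 1) (hx : ∀ j : Fin L, (x ((j : ℤ) + 1) : ℝ) = v j) :
    cyl L E x = if E v then 1 else 0 := by
  have hvS : v ∈ Fintype.piFinset fun _ : Fin L => ({-1, 0, 1} : Finset ℤ) := by
    rw [Fintype.mem_piFinset]
    intro j
    rcases hv j with h | h | h <;> simp [h]
  have h1 : ∀ w ∈ (Fintype.piFinset fun _ : Fin L => ({-1, 0, 1} : Finset ℤ)).filter E,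
      ∏ j : Fin L, bump (w j) (x ((j : ℤ) + 1)) = if w = v then 1 else 0 := by
    intro w hw
    rw [Finset.mem_filter, Fintype.mem_piFinset] at hw
    have h2 : ∀ j : Fin L, bump (w j) (x ((j : ℤ) + 1)) = if v j = w j then 1 else 0 := by
      intro j
      rw [hx j]
      refine bump_val (w j) (v j) ?_ (hv j)
      have := hw.1 j
      simpa using this
    rw [Finset.prod_congr rfl fun j _ => h2 j, Finset.prod_boole]
    by_cases h3 : w = v
    · simp [h3]
    · rw [if_neg h3, if_neg]
      intro h4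
      apply h3
      funext j
      exact (h4 j (Finset.mem_univ _)).symm
  show ∑ w ∈ (Fintype.piFinset fun _ : Fin L => ({-1, 0, 1} : Finset ℤ)).filter E,
    ∏ j : Fin L, bump (w j) (x ((j : ℤ) + 1)) = _
  rw [Finset.sum_congr rfl h1, Finset.sum_ite_eq']
  simp [hvS]

/-- the sign of a number -/
noncomputable def sg (t : ℝ) : ℤ := if t = 1 then 1 else if t = -1 then -1 else 0

theorem sg_meas : Measurable sg := by
  unfold sg
  refine Measurable.ite (measurableSet_singleton _) measurable_const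
    (Measurable.ite (measurableSet_singleton _) measurable_const measurable_const)

theorem sg_val (t : ℝ) : sg t = -1 ∨ sg t = 0 ∨ sg t = 1 := by
  unfold sg
  split_ifs <;> simp

theorem sg_eq (v : ℤ) (hv : v = -1 ∨ v = 0 ∨ v = 1) : sg v = v := by
  unfold sg
  rcases hv with rfl | rfl | rfl <;> norm_num

/-- the word of length `L` -/
noncomputable def wd (L : ℕ) (x : X) : Fin L → ℤ := fun j => sg (x ((j : ℤ) + 1))

theorem wd_meas (L : ℕ) : Measurable (wd L) := by
  refine measurable_pi_lambda _ fun j => ?_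
  exact sg_meas.comp (measurable_subtype_coe.comp (measurable_pi_apply _))

/-- the points with values `-1, 0, 1` -/
def V3 : Set X := {x | ∀ j : ℤ, (x j : ℝ) = -1 ∨ (x j : ℝ) = 0 ∨ (x j : ℝ) = 1}

theorem V3_wd {x : X} (hx : x ∈ V3) {L : ℕ} (j : Fin L) :
    (x ((j : ℤ) + 1) : ℝ) = wd L x j := by
  unfold wd sg
  rcases hx ((j : ℤ) + 1) with h | h | h <;> rw [h] <;> norm_num

/-- `κ` is carried by the points with values `-1, 0, 1` -/
theorem ae_V3 {u : ℕ → I1} {κ : Measure X} (h : QuasiGeneric u κ)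
    (hu : ∀ n, 0 < n → (u n : ℝ) = -1 ∨ (u n : ℝ) = 0 ∨ (u n : ℝ) = 1) :
    ∀ᵐ x ∂κ, x ∈ V3 := by
  haveI := h.1
  obtain ⟨N, hN, hF⟩ := h.2
  unfold V3
  simp only [Set.mem_setOf_eq]
  rw [ae_all_iff]
  intro j
  have h1 := hF ⟨fun x => (x j : ℝ) ^ 2 * (1 - (x j : ℝ) ^ 2), by fun_prop⟩
  simp only [ContinuousMap.coe_mk] at h1
  have h2 : ∀ n, (pt u n j : ℝ) ^ 2 * (1 - (pt u n j : ℝ) ^ 2) = 0 := by
    intro n
    unfold pt
    split_ifs with h3
    · rcases hu ((n : ℤ) + j).toNat (by omega) with h4 | h4 | h4 <;> rw [h4] <;> norm_num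
    · simp [z1]
  simp only [h2] at h1
  have h3 : ∀ k, lavg (N k) (fun _ => (0 : ℝ)) = 0 := by
    intro k
    simp [lavg]
  simp only [h3] at h1
  have h4 : ∫ x : X, (x j : ℝ) ^ 2 * (1 - (x j : ℝ) ^ 2) ∂κ = 0 :=
    (tendsto_nhds_unique h1 tendsto_const_nhds)
  have hb : ∀ x : X, 0 ≤ (x j : ℝ) ^ 2 ∧ (x j : ℝ) ^ 2 ≤ 1 := by
    intro x
    have := (x j).2
    constructor
    · positivity
    · nlinarith [this.1, this.2]
  rw [integral_eq_zero_iff_of_nonneg (fun x => mul_nonneg (hb x).1 (by linarith [(hb x).2]))] at h4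
  · filter_upwards [h4] with x hx
    have hx' : (x j : ℝ) ^ 2 * (1 - (x j : ℝ) ^ 2) = 0 := hx
    rcases mul_eq_zero.1 hx' with h5 | h5
    · right; left
      exact pow_eq_zero_iff two_ne_zero |>.1 h5
    · have h6 : (x j : ℝ) ^ 2 = 1 := by linarith
      have h8 : ((x j : ℝ) - 1) * ((x j : ℝ) + 1) = 0 := by ring_nf; linarith [h6]
      rcases mul_eq_zero.1 h8 with h7 | h7
      · right; right; linarith
      · left; linarith
  · have hc : Continuous (fun x : X => (x j : ℝ)) :=
      continuous_subtype_val.comp (continuous_apply j)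
    refine Integrable.of_bound (C := 1) (Continuous.aestronglyMeasurable
      ((hc.pow 2).mul (continuous_const.sub (hc.pow 2))))
      (Eventually.of_forall fun x => ?_)
    rw [Real.norm_eq_abs, abs_le]
    have := hb x
    constructor <;> nlinarith

end Pool.Agent.H83.W
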