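import Pool.Agent.H83.W.QG
import Pool.Agent.H83.V.Hand

/-!
Theorem V for Furstenberg systems.
-/

set_option autoImplicit false

open MeasureTheory ProbabilityTheory Filter Topology Finset

namespace Pool.Agent.H83.W

open Pool.Agent.H89.MT (I1 X pt lavg QuasiGeneric z1)
open Pool.Agent.H83.V.Hand (f IsCode)
open Pool.Agent.H67.AG (Av)

/-- `u` is the Liouville function (`z = true`) or the Möbius function (`z = false`) -/
def IsF (z : Bool) (u : ℕ → I1) : Prop := ∀ n, 0 < n → (u n : ℝ) = f z n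

theorem f_vals (z : Bool) (n : ℕ) : f z n = -1 ∨ f z n = 0 ∨ f z n = 1 := by
  cases z
  · have := ArithmeticFunction.moebius_eq_or n
    simp only [f]
    rcases this with h | h | h <;> simp [h]
  · simp only [f]
    rcases neg_one_pow_eq_or ℤ (ArithmeticFunction.cardFactors n) with h | h <;> simp [h]

theorem isF_vals {z : Bool} {u : ℕ → I1} (hu : IsF z u) (n : ℕ) (hn : 0 < n) :
    (u n : ℝ) = -1 ∨ (u n : ℝ) = 0 ∨ (u n : ℝ) = 1 := by
  rw [hu n hn]
  rcases f_vals z n with h | h | h <;> simp [h]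

open Classical in
/-- the measure of an event which depends on a finite word -/
theorem kap_le {z : Bool} {u : ℕ → I1} (hu : IsF z u) {κ : Measure X} (h : QuasiGeneric u κ)
    (L : ℕ) (E : (Fin L → ℤ) → Prop) (ρ : ℝ) (C : ℕ)
    (hC : ∀ y : ℕ, C ≤ y → ∑ n ∈ (Icc 1 y).filter (fun n => E fun j => f z (n + j + 1)),
      (1 : ℝ) / n ≤ ρ * Real.log y) : κ.real {x | E (wd L x)} ≤ ρ := by
  have := h.1
  have hV := ae_V3 h (isF_vals hu)
  obtain ⟨N, hN, hF⟩ := h.2
  have h1 := hF (cyl L E)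
  have hint : ∫ x, cyl L E x ∂κ = κ.real {x | E (wd L x)} := by
    have hm : MeasurableSet {x | E (wd L x)} := wd_meas L (MeasurableSet.of_discrete (s := {w | E w}))
    rw [← integral_indicator_one hm]
    refine integral_congr_ae ?_
    filter_upwards [hV] with x hx
    rw [cyl_val L E x (wd L x) (fun j => sg_val _) (fun j => V3_wd hx j)]
    by_cases hE : E (wd L x)
    · rw [if_pos hE, Set.indicator_of_mem (by exact hE)]
      rfl
    · rw [if_neg hE, Set.indicator_of_notMem (by exact hE)]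
  rw [hint] at h1
  have hlog : Tendsto (fun k => Real.log (N k)) atTop atTop :=
    Real.tendsto_log_atTop.comp (tendsto_natCast_atTop_atTop.comp hN)
  refine le_of_tendsto h1 ?_
  filter_upwards [hlog.eventually_gt_atTop 0, hN.eventually_ge_atTop C] with k hk hk2
  have h2 : ∀ n ∈ Icc 1 (N k), cyl L E (pt u n) / n =
      if E (fun j => f z (n + j + 1)) then (1 : ℝ) / n else 0 := by
    intro n hn
    rw [cyl_val L E (pt u n) (fun j => f z (n + j + 1)) (fun j => f_vals z _) ?_]
    · split_ifs <;> simp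
    · intro j
      have h3 : ((n : ℤ) + ((j : ℤ) + 1)).toNat = n + j + 1 := by omega
      unfold pt
      rw [if_pos (by positivity), h3, hu _ (by omega)]
  unfold lavg
  rw [Finset.sum_congr rfl h2, ← Finset.sum_filter, div_le_iff₀ hk]
  exact hC (N k) hk2

/-- a word seen at `h` -/
def at_ {L : ℕ} (m : ℕ) (w : Fin L → ℤ) (h : ℕ) : Fin m → ℤ :=
  fun i => if hk : h + i < L then w ⟨h + i, hk⟩ else 0

open Classical in
/-- some code contains most of the subwords -/
def EH (m : ℕ) (I : Finset (Fin m)) (η : ℝ) (H : ℕ) (w : Fin (H + m) → ℤ) : Prop :=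
  ∃ G : Set (Fin m → ℤ), IsCode I G ∧ (#{h ∈ range H | at_ m w h ∉ G} : ℝ) ≤ η * H

theorem EH_le {z : Bool} {u : ℕ → I1} (hu : IsF z u) {κ : Measure X} (h : QuasiGeneric u κ)
    (m : ℕ) (I : Finset (Fin m)) (hI : I.Nonempty) (ρ : ℝ) (hρ : 0 < ρ) :
    ∃ H₀ : ℕ, ∀ H, H₀ ≤ H →
      κ.real {x | EH m I (ρ ^ 4 * #I / (10 ^ 17 * m)) H (wd (H + m) x)} ≤ ρ := by
  classical
  obtain ⟨H₀, h1⟩ := Pool.Agent.H83.V.Hand.main z m I hI ρ hρ
  refine ⟨H₀, fun H hH => ?_⟩
  obtain ⟨C, h1⟩ := h1 H hH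
  refine kap_le hu h (H + m) _ ρ C fun y hy => ?_
  have h2 := h1 1 y one_pos (by omega)
  rw [Nat.cast_one, div_one] at h2
  refine le_trans (Finset.sum_le_sum_of_subset_of_nonneg ?_ fun i _ _ => by positivity) h2
  intro n hn
  rw [Finset.mem_filter] at hn ⊢
  refine ⟨hn.1, ?_⟩
  obtain ⟨G, hG, hc⟩ := hn.2
  refine ⟨G, hG, le_trans (le_of_eq ?_) hc⟩
  norm_cast
  congr 1
  refine Finset.filter_congr fun h hh => ?_
  rw [Finset.mem_range] at hh
  have e : at_ m (fun j : Fin (H + m) => f z (n + j + 1)) h =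
      fun i : Fin m => f z (n + h + i + 1) := by
    funext i
    unfold at_
    rw [dif_pos (by have := i.2; omega)]
    show f z (n + (h + i) + 1) = _
    rw [← add_assoc]
  rw [e]

/-- no two elements of `G` differ exactly by the sign at one place of `I` -/
def RCode {m : ℕ} (I : Finset (Fin m)) (G : Set (Fin m → ℝ)) : Prop :=
  ∀ v ∈ G, ∀ w ∈ G, ∀ i ∈ I, ¬ (v i ≠ 0 ∧ w i = -v i ∧ ∀ j, j ≠ i → w j = v j)

/-- the invariant sets -/
abbrev IS : MeasurableSpace X := MeasurableSpace.invariants S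

theorem IS_le : IS ≤ (MeasurableSpace.pi : MeasurableSpace X) := fun _ hs => hs.1

theorem inv_eq : Pool.Agent.H67.AG.Inv Se 1 = IS := by
  show MeasurableSpace.invariants (S^[1]) = IS
  rw [Function.iterate_one]

/-- the components on which some code has a small error -/
def Bd (κ : Measure X) [IsFiniteMeasure κ] (m : ℕ) (I : Finset (Fin m)) (η : ℝ) : Set X :=
  {x | ∃ G : Set (Fin m → ℝ), RCode I G ∧
    (condExpKernel κ (MeasurableSpace.invariants S) x).real
      {y | (fun i : Fin m => (y ((i : ℤ) + 1) : ℝ)) ∉ G} ≤ η}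

theorem iter_S (h : ℕ) (x : X) (t : ℤ) : (S^[h] x) t = x (t + h) := by
  induction h generalizing x t with
  | zero => simp
  | succ h ih =>
    rw [Function.iterate_succ_apply, ih]
    unfold S
    congr 1
    push_cast
    ring

theorem wd_at (m H : ℕ) (x : X) (h : ℕ) (hh : h < H) :
    at_ m (wd (H + m) x) h = wd m (S^[h] x) := by
  funext i
  unfold at_ wd
  rw [dif_pos (by have := i.2; omega), iter_S]
  congr 3
  push_cast
  ring

open Classical in
theorem bad_sub {z : Bool} {u : ℕ → I1} (hu : IsF z u) {κ : Measure X} [IsProbabilityMeasure κ]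
    (h : QuasiGeneric u κ) (m : ℕ) (I : Finset (Fin m)) (η η' : ℝ) (hη : η < η') :
    ∀ᵐ x ∂κ, x ∈ Bd κ m I η → ∀ᶠ H : ℕ in atTop, EH m I η' H (wd (H + m) x) := by
  have mp : MeasurePreserving Se κ κ := qg_mp h
  have hV := ae_V3 h (isF_vals hu)
  -- almost every component is carried by the points with values -1, 0, 1
  have hVc : ∀ᵐ x ∂κ, ∀ᵐ y ∂(condExpKernel κ IS x), y ∈ V3 := by
    rw [ae_iff] at hV
    obtain ⟨N, hN1, hN2, hN3⟩ := exists_measurable_superset_of_null hV
    have h1 := condExpKernel_ae_eq_condExp (μ := κ) IS_le hN2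
    have h2 : κ[N.indicator (fun _ => (1 : ℝ)) | IS] =ᵐ[κ] 0 := by
      have h3 : N.indicator (fun _ => (1 : ℝ)) =ᵐ[κ] 0 := indicator_meas_zero hN3
      exact (condExp_congr_ae h3).trans (by rw [condExp_zero])
    filter_upwards [h1, h2] with x h3 h4
    rw [ae_iff]
    have h5 : (condExpKernel κ IS x).real N = 0 := by rw [h3, h4]; rfl
    exact measure_mono_null hN1 ((measureReal_eq_zero_iff).1 h5)
  -- the ergodic theorem for all finite sets
  have hB : ∀ᵐ x ∂κ, ∀ T : Finset (Fin m → ℤ),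
      Tendsto (fun n => Av Se 1 n (fun y => if wd m y ∈ T then 0 else 1) x) atTop
        (𝓝 ((condExpKernel κ IS x).real {y | wd m y ∉ T})) := by
    rw [ae_all_iff]
    intro T
    have hTm : MeasurableSet {y : X | wd m y ∉ T} :=
      wd_meas m (MeasurableSet.of_discrete (s := {w | w ∉ T}))
    have hfun : (fun y : X => if wd m y ∈ T then (0 : ℝ) else 1) =
        {y : X | wd m y ∉ T}.indicator fun _ => (1 : ℝ) := by
      funext y
      by_cases hy : wd m y ∈ T
      · rw [if_pos hy, Set.indicator_of_notMem (by simpa using hy)]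
      · rw [if_neg hy, Set.indicator_of_mem (by simpa using hy)]
    have h1 := Pool.Agent.H83.V.v_BK X κ Se 1 (fun y : X => if wd m y ∈ T then (0 : ℝ) else 1) mp
      (by rw [hfun]; exact measurable_const.indicator hTm)
      ⟨1, fun y => by split_ifs <;> simp⟩
    have h2 := condExpKernel_ae_eq_condExp (μ := κ) IS_le hTm
    rw [inv_eq] at h1
    filter_upwards [h1, h2] with x h3 h4
    rw [h4, ← hfun]
    exact h3
  filter_upwards [hVc, hB] with x hx1 hx2 hbad
  obtain ⟨G, hG, hGe⟩ := hbad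
  set T : Finset (Fin m → ℤ) := (Fintype.piFinset fun _ : Fin m => ({-1, 0, 1} : Finset ℤ)).filter
    fun w => (fun i => (w i : ℝ)) ∈ G with hT
  have hTc : IsCode I (T : Set (Fin m → ℤ)) := by
    intro v hv w hw i hi hd
    rw [Finset.mem_coe, hT, Finset.mem_filter] at hv hw
    refine hG _ hv.2 _ hw.2 i hi ⟨?_, ?_, ?_⟩
    · exact_mod_cast hd.1
    · simp only [hd.2.1]
      push_cast
      ring
    · intro j hj
      simp only [hd.2.2 j hj]
  have hle : (condExpKernel κ IS x).real {y | wd m y ∉ T} ≤ η := by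
    refine le_trans (le_of_eq ?_) hGe
    refine measureReal_congr ?_
    filter_upwards [hx1] with y hy
    apply propext
    have e : (fun i : Fin m => (y ((i : ℤ) + 1) : ℝ)) = fun i => ((wd m y i : ℤ) : ℝ) := by
      funext i
      exact V3_wd hy i
    show wd m y ∉ T ↔ (fun i : Fin m => (y ((i : ℤ) + 1) : ℝ)) ∉ G
    rw [e, hT, Finset.mem_filter, Fintype.mem_piFinset]
    have h1 : ∀ i, wd m y i ∈ ({-1, 0, 1} : Finset ℤ) := by
      intro i
      rcases sg_val (y ((i : ℤ) + 1)) with h | h | h <;> simp [wd, h]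
    simp [h1]
  have hlim := (hx2 T).eventually_lt_const (lt_of_le_of_lt hle hη)
  filter_upwards [hlim, eventually_gt_atTop 0] with H hH hH0
  refine ⟨T, hTc, ?_⟩
  have hHr : (0 : ℝ) < H := by exact_mod_cast hH0
  unfold Av at hH
  rw [div_lt_iff₀ hHr] at hH
  refine le_trans (le_of_eq ?_) hH.le
  rw [Finset.card_filter]
  push_cast
  refine Finset.sum_congr rfl fun h hh => ?_
  rw [wd_at m H x h (Finset.mem_range.1 hh), one_mul, Se_eq]
  by_cases hy : wd m (S^[h] x) ∈ T
  · rw [if_pos hy, if_neg]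
    simpa using hy
  · rw [if_neg hy, if_pos]
    simpa using hy

/-- **Theorem V for Furstenberg systems** -/
theorem fs {z : Bool} {u : ℕ → I1} (hu : IsF z u) (κ : Measure X) [IsProbabilityMeasure κ]
    (h : QuasiGeneric u κ) (m : ℕ) (I : Finset (Fin m)) (hI : I.Nonempty) (ρ : ℝ) (hρ : 0 < ρ) :
    κ.real (Bd κ m I (ρ ^ 4 * #I / (10 ^ 17 * m))) ≤ ρ := by
  classical
  have hm : (0 : ℝ) < m := by
    obtain ⟨i, _⟩ := hI
    exact_mod_cast (lt_of_le_of_lt (Nat.zero_le _) i.2)
  have hI0 : (0 : ℝ) < #I := by exact_mod_cast hI.card_pos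
  refine le_of_forall_gt_imp_ge_of_dense fun ρ' hρ' => ?_
  have hη : ρ ^ 4 * #I / (10 ^ 17 * m) < ρ' ^ 4 * #I / (10 ^ 17 * m) := by
    apply div_lt_div_of_pos_right _ (by positivity)
    apply mul_lt_mul_of_pos_right _ hI0
    exact pow_lt_pow_left₀ hρ' hρ.le (by norm_num)
  have h1 := bad_sub hu h m I _ _ hη
  obtain ⟨H₀, h2⟩ := EH_le hu h m I hI ρ' (hρ.trans hρ')
  set A : ℕ → Set X := fun k => {x | ∀ H, k ≤ H → EH m I (ρ' ^ 4 * #I / (10 ^ 17 * m)) H
    (wd (H + m) x)} with hA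
  have hmono : Monotone A := by
    intro a b hab x hx H hH
    exact hx H (hab.trans hH)
  have hAle : ∀ k, κ (A k) ≤ ENNReal.ofReal ρ' := by
    intro k
    have h3 : A k ⊆ {x | EH m I (ρ' ^ 4 * #I / (10 ^ 17 * m)) (max k H₀)
        (wd (max k H₀ + m) x)} := fun x hx => hx _ (le_max_left _ _)
    refine (measure_mono h3).trans ?_
    rw [← ofReal_measureReal]
    exact ENNReal.ofReal_le_ofReal (h2 _ (le_max_right _ _))
  have hU : κ (⋃ k, A k) ≤ ENNReal.ofReal ρ' := by
    have h3 := tendsto_measure_iUnion_atTop (μ := κ) hmono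
    exact le_of_tendsto' h3 hAle
  have h3 : κ (Bd κ m I (ρ ^ 4 * #I / (10 ^ 17 * m))) ≤ κ (⋃ k, A k) := by
    refine measure_mono_ae ?_
    filter_upwards [h1] with x hx hbad
    obtain ⟨k, hk⟩ := eventually_atTop.1 (hx hbad)
    exact Set.mem_iUnion.2 ⟨k, hk⟩
  have h4 := h3.trans hU
  rw [measureReal_def]
  exact ENNReal.toReal_le_of_le_ofReal (hρ.trans hρ').le h4

end Pool.Agent.H83.W
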